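import Mathlib

/-!
# Chains of vectors `b_i' = w_i b_{i+1}` and the number of times the first `k` of them degenerate

`W` is a space of functionals (coordinate vectors `c`, acting by the dot product), `b i t` a chain of
vectors, `ν` the length of the chain.
-/

set_option autoImplicit false

open Set

namespace Pool.Agent.Lib_helper50.GC

variable {N : ℕ}

/-- A chain of length `ν` on the interval `(α, β)`, seen through the functionals in `W`. -/
structure Sys (W : Submodule ℝ (Fin N → ℝ)) (ν : ℕ) (α β : ℝ)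
    (b : ℕ → ℝ → (Fin N → ℝ)) (w : ℕ → ℝ → ℝ) : Prop where
  wpos : ∀ i, ∀ t ∈ Ioo α β, 0 < w i t
  wcont : ∀ i, ContinuousOn (w i) (Ioo α β)
  der : ∀ i, i + 1 < ν → ∀ t ∈ Ioo α β, ∀ c ∈ W,
    HasDerivAt (fun u => c ⬝ᵥ b i u) (w i t * (c ⬝ᵥ b (i + 1) t)) t
  last : ∀ i, i + 1 = ν → ∀ t ∈ Ioo α β, ∀ c ∈ W, HasDerivAt (fun u => c ⬝ᵥ b i u) 0 t
  span : ∀ t ∈ Ioo α β, ∀ c ∈ W, (∀ i < ν, c ⬝ᵥ b i t = 0) → c = 0

/-- `t` is a zero: the first `k` vectors of the chain are dependent modulo `W^⊥`. -/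
def IsZero (W : Submodule ℝ (Fin N → ℝ)) (k : ℕ) (b : ℕ → ℝ → (Fin N → ℝ)) (t : ℝ) : Prop :=
  ∃ c ∈ W, c ≠ 0 ∧ ∀ i < k, c ⬝ᵥ b i t = 0

/-- Gordan's alternative for the functionals in `W` and the vectors `v_0, …, v_{ν-1}`. -/
lemma gordan (W : Submodule ℝ (Fin N → ℝ)) (ν : ℕ) (v : ℕ → (Fin N → ℝ)) :
    (∃ c ∈ W, ∀ i < ν, 0 < c ⬝ᵥ v i) ∨
    (∃ p : ℕ → ℝ, (∀ i, 0 ≤ p i) ∧ (∃ i < ν, 0 < p i) ∧ (∀ i, ν ≤ i → p i = 0) ∧
      ∀ c ∈ W, ∑ i ∈ Finset.range ν, p i * (c ⬝ᵥ v i) = 0) := by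
  classical
  by_cases hF : ∃ c ∈ W, ∀ i < ν, 0 < c ⬝ᵥ v i
  · exact Or.inl hF
  right
  -- the range of `W` in `ℝ^ν`
  let T : (Fin N → ℝ) →ₗ[ℝ] (Fin ν → ℝ) :=
    { toFun := fun c i => c ⬝ᵥ v i
      map_add' := by intro a b; ext i; simp [add_dotProduct]
      map_smul' := by intro a b; ext i; simp [smul_dotProduct] }
  have hT : ∀ c i, T c i = c ⬝ᵥ v i := fun c i => rfl
  let R : Set (Fin ν → ℝ) := (W.map T : Submodule ℝ (Fin ν → ℝ))
  let P : Set (Fin ν → ℝ) := {x | ∀ i, 0 < x i}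
  have hPo : IsOpen P := by
    have : P = ⋂ i, {x : Fin ν → ℝ | 0 < x i} := by ext x; simp [P]
    rw [this]
    exact isOpen_iInter_of_finite fun i => isOpen_lt continuous_const (continuous_apply i)
  have hPc : Convex ℝ P := by
    intro x hx y hy a b ha hb hab i
    have h1 := hx i
    have h2 := hy i
    simp only [Pi.add_apply, Pi.smul_apply, smul_eq_mul]
    rcases ha.eq_or_lt with h0 | h0
    · have : b = 1 := by linarith
      rw [← h0, this]; simpa using h2
    · have : 0 ≤ b * y i := mul_nonneg hb h2.le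
      have : 0 < a * x i := mul_pos h0 h1
      linarith
  have hRc : Convex ℝ R := (W.map T).convex
  have hdisj : Disjoint P R := by
    rw [Set.disjoint_left]
    rintro x hx ⟨c, hc, rfl⟩
    exact hF ⟨c, hc, fun i hi => hx ⟨i, hi⟩⟩
  obtain ⟨f, u, hfP, hfR⟩ := geometric_hahn_banach_open hPc hPo hRc hdisj
  have hu0 : u ≤ 0 := by simpa using hfR 0 (W.map T).zero_mem
  have hfR0 : ∀ x ∈ R, f x = 0 := by
    intro x hx
    by_contra hne
    -- scale
    have hs : ∀ a : ℝ, u ≤ a * f x := by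
      intro a
      have := hfR (a • x) ((W.map T).smul_mem a hx)
      simpa using this
    have h1 := hs ((u - 1) / f x)
    rw [div_mul_cancel₀ _ hne] at h1
    linarith
  have hfneg : ∀ x ∈ P, f x < 0 := fun x hx => (hfP x hx).trans_le hu0
  let q : Fin ν → ℝ := fun i => - f (Pi.single i 1)
  have hq : ∀ x, f x = - ∑ i, q i * x i := by
    intro x
    have hx : x = ∑ i, x i • (Pi.single i (1:ℝ) : Fin ν → ℝ) := by
      ext j
      simp [Finset.sum_apply, Pi.single_apply]
    conv_lhs => rw [hx]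
    rw [map_sum, ← Finset.sum_neg_distrib]
    apply Finset.sum_congr rfl
    intro i _
    simp [q, mul_comm]
  have hqnn : ∀ i, 0 ≤ q i := by
    intro i
    by_contra hneg
    push Not at hneg
    -- choose x = ε everywhere, large at i
    set S : ℝ := ∑ j, |q j| with hS
    have hSn : 0 ≤ S := Finset.sum_nonneg fun j _ => abs_nonneg _
    let x : Fin ν → ℝ := fun j => if j = i then (S + 1) / (- q i) + 1 else 1
    have hx : x ∈ P := by
      intro j
      by_cases h : j = i
      · have h0 : 0 < - q i := by linarith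
        have : 0 < (S + 1) / (- q i) := by positivity
        simp only [x, h, if_true]; linarith
      · simp [x, h]
    have h1 := hfneg x hx
    rw [hq] at h1
    have h2 : ∑ j, q j * x j = (∑ j, q j) + q i * ((S + 1) / (- q i)) := by
      have : ∀ j, q j * x j = q j + (if j = i then q i * ((S + 1) / (- q i)) else 0) := by
        intro j
        by_cases h : j = i
        · simp only [x, h, if_true]; ring
        · simp [x, h]
      rw [Finset.sum_congr rfl fun j _ => this j, Finset.sum_add_distrib]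
      simp
    have h3 : q i * ((S + 1) / (- q i)) = -(S + 1) := by
      have : q i ≠ 0 := by linarith
      field_simp
    have h4 : ∑ j, q j ≤ S := Finset.sum_le_sum fun j _ => le_abs_self _
    rw [h2, h3] at h1
    linarith
  have hqpos : ∃ i, 0 < q i := by
    by_contra hcon
    push Not at hcon
    have h0 : ∀ i, q i = 0 := fun i => le_antisymm (hcon i) (hqnn i)
    have h1 := hfneg (fun _ => 1) (fun i => one_pos)
    rw [hq] at h1
    simp [h0] at h1
  refine ⟨fun i => if h : i < ν then q ⟨i, h⟩ else 0, ?_, ?_, ?_, ?_⟩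
  · intro i
    by_cases h : i < ν
    · simp only [h, dite_true]; exact hqnn _
    · simp [h]
  · obtain ⟨i, hi⟩ := hqpos
    exact ⟨i, i.2, by simpa using hi⟩
  · intro i hi
    simp [not_lt.mpr hi]
  · intro c hc
    have h1 := hfR0 (T c) ⟨c, hc, rfl⟩
    rw [hq] at h1
    have h2 : ∑ i : Fin ν, q i * T c i = 0 := by linarith
    rw [Finset.sum_range]
    rw [← h2]
    apply Finset.sum_congr rfl
    intro i _
    simp [hT]


section FStep

variable {W W' : Submodule ℝ (Fin N → ℝ)} {ν : ℕ} {α β : ℝ} {b : ℕ → ℝ → (Fin N → ℝ)}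
  {w : ℕ → ℝ → ℝ} {f : Fin N → ℝ}

/-- the vectors of the reduced chain (positive functional `f`) -/
noncomputable def fb (f : Fin N → ℝ) (b : ℕ → ℝ → (Fin N → ℝ)) (i : ℕ) (t : ℝ) : Fin N → ℝ :=
  (f ⬝ᵥ b i t / (f ⬝ᵥ b (i + 1) t)) • b (i + 1) t - b i t

/-- the weights of the reduced chain (positive functional `f`) -/
noncomputable def fw (f : Fin N → ℝ) (b : ℕ → ℝ → (Fin N → ℝ)) (w : ℕ → ℝ → ℝ) (ν : ℕ)
    (i : ℕ) (t : ℝ) : ℝ :=
  if i + 1 < ν then
    w (i + 1) t * (f ⬝ᵥ b i t) * (f ⬝ᵥ b (i + 2) t) / (f ⬝ᵥ b (i + 1) t) ^ 2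
  else 1

lemma dot_fb (c : Fin N → ℝ) (i : ℕ) (t : ℝ) :
    c ⬝ᵥ fb f b i t = (f ⬝ᵥ b i t / (f ⬝ᵥ b (i + 1) t)) * (c ⬝ᵥ b (i + 1) t) - c ⬝ᵥ b i t := by
  simp [fb, dotProduct_sub, dotProduct_smul]

lemma Sys.continuousOn (S : Sys W ν α β b w) {i : ℕ} (hi : i < ν) {c : Fin N → ℝ} (hc : c ∈ W) :
    ContinuousOn (fun u => c ⬝ᵥ b i u) (Ioo α β) := by
  intro t ht
  rcases Nat.lt_or_ge (i + 1) ν with h | h
  · exact (S.der i h t ht c hc).continuousAt.continuousWithinAt
  · exact (S.last i (by omega) t ht c hc).continuousAt.continuousWithinAt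

lemma fstep (S : Sys W (ν + 1) α β b w) (hf : f ∈ W)
    (hpos : ∀ i < ν + 1, ∀ t ∈ Ioo α β, 0 < f ⬝ᵥ b i t) (hW : W' ≤ W)
    (hd : ∀ c ∈ W', ∀ r : ℝ, c = r • f → c = 0) :
    Sys W' ν α β (fb f b) (fw f b w ν) := by
  constructor
  · intro i t ht
    unfold fw
    split_ifs with h
    · have h0 := hpos i (by omega) t ht
      have h1 := hpos (i + 1) (by omega) t ht
      have h2 := hpos (i + 2) (by omega) t ht
      have h3 := S.wpos (i + 1) t ht
      positivity
    · exact one_pos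
  · intro i
    unfold fw
    split_ifs with h
    · have c0 := S.continuousOn (i := i) (by omega) hf
      have c1 := S.continuousOn (i := i + 1) (by omega) hf
      have c2 := S.continuousOn (i := i + 2) (by omega) hf
      refine (((S.wcont (i + 1)).mul c0).mul c2).div (c1.pow 2) ?_
      intro t ht
      have := hpos (i + 1) (by omega) t ht
      positivity
    · exact continuousOn_const
  · intro i hi t ht c hc
    have hcW := hW hc
    have h0 := hpos i (by omega) t ht
    have h1 := hpos (i + 1) (by omega) t ht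
    have h2 := hpos (i + 2) (by omega) t ht
    have d0 := S.der i (by omega) t ht f hf
    have d1 := S.der (i + 1) (by omega) t ht f hf
    have e0 := S.der i (by omega) t ht c hcW
    have e1 := S.der (i + 1) (by omega) t ht c hcW
    have key := ((d0.div d1 h1.ne').mul e1).sub e0
    have heq : (fun u => c ⬝ᵥ fb f b i u) =
        (((fun u => f ⬝ᵥ b i u) / fun u => f ⬝ᵥ b (i + 1) u) * fun u => c ⬝ᵥ b (i + 1) u) -
          fun u => c ⬝ᵥ b i u := by
      ext u
      simp [dot_fb]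
    rw [heq]
    refine key.congr_deriv ?_
    rw [dot_fb]
    unfold fw
    rw [if_pos (by omega : i + 1 < ν)]
    simp only [Pi.div_apply]
    have h1' := h1.ne'
    have h2' := h2.ne'
    field_simp
    ring
  · intro i hi t ht c hc
    have hcW := hW hc
    have h0 := hpos i (by omega) t ht
    have h1 := hpos (i + 1) (by omega) t ht
    have d0 := S.der i (by omega) t ht f hf
    have d1 := S.last (i + 1) (by omega) t ht f hf
    have e0 := S.der i (by omega) t ht c hcW
    have e1 := S.last (i + 1) (by omega) t ht c hcW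
    have key := ((d0.div d1 h1.ne').mul e1).sub e0
    have heq : (fun u => c ⬝ᵥ fb f b i u) =
        (((fun u => f ⬝ᵥ b i u) / fun u => f ⬝ᵥ b (i + 1) u) * fun u => c ⬝ᵥ b (i + 1) u) -
          fun u => c ⬝ᵥ b i u := by
      ext u
      simp [dot_fb]
    rw [heq]
    refine key.congr_deriv ?_
    simp only [Pi.div_apply]
    have h1' := h1.ne'
    field_simp
    ring
  · intro t ht c hc hz
    have hcW := hW hc
    set r : ℝ := (c ⬝ᵥ b 0 t) / (f ⬝ᵥ b 0 t) with hr
    have hall : ∀ i < ν + 1, c ⬝ᵥ b i t = r * (f ⬝ᵥ b i t) := by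
      intro i
      induction i with
      | zero =>
        intro _
        have h0 := (hpos 0 (by omega) t ht).ne'
        rw [hr]; field_simp
      | succ i ih =>
        intro hi
        have h0 := (hpos i (by omega) t ht).ne'
        have h1 := (hpos (i + 1) hi t ht).ne'
        have h2 := hz i (by omega)
        rw [dot_fb, ih (by omega)] at h2
        have h3 : (f ⬝ᵥ b i t) * ((c ⬝ᵥ b (i + 1) t) / (f ⬝ᵥ b (i + 1) t) - r) = 0 := by
          rw [← h2]; field_simp
        have h4 := (mul_eq_zero.mp h3).resolve_left h0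
        have h5 : (c ⬝ᵥ b (i + 1) t) / (f ⬝ᵥ b (i + 1) t) = r := by linarith
        rw [div_eq_iff h1] at h5
        exact h5
    have hsub : c - r • f = 0 := by
      refine S.span t ht _ (W.sub_mem hcW (W.smul_mem r hf)) ?_
      intro i hi
      rw [sub_dotProduct, smul_dotProduct, hall i hi]
      simp
    exact hd c hc r (by rwa [sub_eq_zero] at hsub)

lemma fzero {k : ℕ} (hpos : ∀ i < k + 1, 0 < f ⬝ᵥ b i β)
    (hsup : ∀ c ∈ W, ∃ r : ℝ, c - r • f ∈ W') (hz : IsZero W (k + 1) b β) :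
    IsZero W' k (fb f b) β := by
  obtain ⟨c, hc, hc0, hci⟩ := hz
  obtain ⟨r, hr⟩ := hsup c hc
  refine ⟨c - r • f, hr, ?_, ?_⟩
  · intro h0
    have h1 : c = r • f := by rwa [sub_eq_zero] at h0
    have h2 := hci 0 (by omega)
    rw [h1, smul_dotProduct, smul_eq_mul] at h2
    have h3 := hpos 0 (by omega)
    have h4 : r = 0 := by
      rcases mul_eq_zero.mp h2 with h | h
      · exact h
      · exact absurd h h3.ne'
    exact hc0 (by rw [h1, h4, zero_smul])
  · intro i hi
    rw [dot_fb]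
    simp only [sub_dotProduct, smul_dotProduct, smul_eq_mul]
    rw [hci i (by omega), hci (i + 1) (by omega)]
    have h1 := (hpos (i + 1) (by omega)).ne'
    field_simp
    ring

end FStep

section PStep

/-- Solving `P_{i+1}' = - w_i P_i`, `P_0' = 0` backwards from given data at `t₁`. -/
lemma exists_P {α β t₁ : ℝ} (ht₁ : t₁ ∈ Ioo α β) (w : ℕ → ℝ → ℝ)
    (wcont : ∀ i, ContinuousOn (w i) (Ioo α β)) (p : ℕ → ℝ) :
    ∃ P : ℕ → ℝ → ℝ, (∀ i, P i t₁ = p i) ∧ (∀ t ∈ Ioo α β, HasDerivAt (P 0) 0 t) ∧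
      ∀ i, ∀ t ∈ Ioo α β, HasDerivAt (P (i + 1)) (-(w i t * P i t)) t := by
  let P : ℕ → ℝ → ℝ := fun i => Nat.rec (fun _ => p 0)
    (fun i Pi t => p (i + 1) + ∫ s in t..t₁, w i s * Pi s) i
  have hP0 : P 0 = fun _ => p 0 := rfl
  have hPs : ∀ i, P (i + 1) = fun t => p (i + 1) + ∫ s in t..t₁, w i s * P i s := fun i => rfl
  have hcont : ∀ i, ContinuousOn (P i) (Ioo α β) ∧
      ∀ t ∈ Ioo α β, HasDerivAt (P (i + 1)) (-(w i t * P i t)) t := by
    intro i
    induction i with
    | zero =>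
      have h1 : ContinuousOn (P 0) (Ioo α β) := by rw [hP0]; exact continuousOn_const
      refine ⟨h1, ?_⟩
      intro t ht
      rw [hPs]
      have hc : ContinuousOn (fun s => w 0 s * P 0 s) (Ioo α β) := (wcont 0).mul h1
      have hsub : uIcc t t₁ ⊆ Ioo α β := (ordConnected_Ioo).uIcc_subset ht ht₁
      have key := intervalIntegral.integral_hasDerivAt_left
        ((hc.mono hsub).intervalIntegrable)
        (hc.stronglyMeasurableAtFilter isOpen_Ioo t ht) (hc.continuousAt (isOpen_Ioo.mem_nhds ht))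
      exact (key.const_add (p 1))
    | succ i ih =>
      have h1 : ContinuousOn (P (i + 1)) (Ioo α β) := fun t ht =>
        (ih.2 t ht).continuousAt.continuousWithinAt
      refine ⟨h1, ?_⟩
      intro t ht
      rw [hPs]
      have hc : ContinuousOn (fun s => w (i + 1) s * P (i + 1) s) (Ioo α β) :=
        (wcont (i + 1)).mul h1
      have hsub : uIcc t t₁ ⊆ Ioo α β := (ordConnected_Ioo).uIcc_subset ht ht₁
      have key := intervalIntegral.integral_hasDerivAt_left
        ((hc.mono hsub).intervalIntegrable)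
        (hc.stronglyMeasurableAtFilter isOpen_Ioo t ht) (hc.continuousAt (isOpen_Ioo.mem_nhds ht))
      exact (key.const_add (p (i + 2)))
  refine ⟨P, ?_, ?_, fun i => (hcont i).2⟩
  · intro i
    cases i with
    | zero => rfl
    | succ i => rw [hPs]; simp
  · intro t _
    rw [hP0]
    exact hasDerivAt_const t _

/-- A function with nonpositive (negative) derivative on `(α, t₁]` is larger before `t₁`. -/
lemma lt_of_deriv_neg {α β t₁ t : ℝ} (ht₁ : t₁ ∈ Ioo α β) (ht : t ∈ Ioo α t₁) {g g' : ℝ → ℝ}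
    (hg : ∀ s ∈ Ioo α β, HasDerivAt g (g' s) s) (hneg : ∀ s ∈ Ioo t t₁, g' s < 0) :
    g t₁ < g t := by
  have hsub : Icc t t₁ ⊆ Ioo α β := fun s hs => ⟨lt_of_lt_of_le ht.1 hs.1, lt_of_le_of_lt hs.2 ht₁.2⟩
  have hc : ContinuousOn g (Icc t t₁) := fun s hs =>
    (hg s (hsub hs)).continuousAt.continuousWithinAt
  obtain ⟨s, hs, hs'⟩ := exists_hasDerivAt_eq_slope g g' ht.2 hc
    (fun s hs => hg s (hsub (Ioo_subset_Icc_self hs)))
  have h1 := hneg s hs
  rw [hs'] at h1
  have h2 : 0 < t₁ - t := by linarith [ht.2]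
  have h3 : g t₁ - g t < 0 := by
    by_contra hcon
    push Not at hcon
    have := div_nonneg hcon h2.le
    linarith
  linarith

lemma le_of_deriv_nonpos {α β t₁ t : ℝ} (ht₁ : t₁ ∈ Ioo α β) (ht : t ∈ Ioo α t₁) {g g' : ℝ → ℝ}
    (hg : ∀ s ∈ Ioo α β, HasDerivAt g (g' s) s) (hneg : ∀ s ∈ Ioo t t₁, g' s ≤ 0) :
    g t₁ ≤ g t := by
  have hsub : Icc t t₁ ⊆ Ioo α β := fun s hs => ⟨lt_of_lt_of_le ht.1 hs.1, lt_of_le_of_lt hs.2 ht₁.2⟩
  have hc : ContinuousOn g (Icc t t₁) := fun s hs =>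
    (hg s (hsub hs)).continuousAt.continuousWithinAt
  obtain ⟨s, hs, hs'⟩ := exists_hasDerivAt_eq_slope g g' ht.2 hc
    (fun s hs => hg s (hsub (Ioo_subset_Icc_self hs)))
  have h1 := hneg s hs
  rw [hs'] at h1
  have h2 : 0 < t₁ - t := by linarith [ht.2]
  by_contra hcon
  push Not at hcon
  have : 0 < (g t₁ - g t) / (t₁ - t) := div_pos (by linarith) h2
  linarith

lemma const_of_deriv_zero {α β : ℝ} {g : ℝ → ℝ} (hg : ∀ s ∈ Ioo α β, HasDerivAt g 0 s)
    {s t : ℝ} (hs : s ∈ Ioo α β) (ht : t ∈ Ioo α β) : g s = g t := by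
  refine IsOpen.is_const_of_deriv_eq_zero isOpen_Ioo isPreconnected_Ioo ?_ ?_ hs ht
  · exact fun x hx => (hg x hx).differentiableAt.differentiableWithinAt
  · exact fun x hx => (hg x hx).deriv

/-- signs of the solution -/
lemma P_signs {α β t₁ : ℝ} (ht₁ : t₁ ∈ Ioo α β) {w : ℕ → ℝ → ℝ}
    (wpos : ∀ i, ∀ t ∈ Ioo α β, 0 < w i t) {p : ℕ → ℝ} (hp : ∀ i, 0 ≤ p i) {j : ℕ}
    (hj : 0 < p j) (hjz : ∀ i < j, p i = 0) {P : ℕ → ℝ → ℝ} (hP1 : ∀ i, P i t₁ = p i)
    (hP0 : ∀ t ∈ Ioo α β, HasDerivAt (P 0) 0 t)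
    (hPs : ∀ i, ∀ t ∈ Ioo α β, HasDerivAt (P (i + 1)) (-(w i t * P i t)) t) :
    (∀ i < j, ∀ t ∈ Ioo α β, P i t = 0) ∧ (∀ i, j ≤ i → ∀ t ∈ Ioo α t₁, 0 < P i t) := by
  have hz : ∀ i < j, ∀ t ∈ Ioo α β, P i t = 0 := by
    intro i
    induction i with
    | zero =>
      intro hi t ht
      rw [const_of_deriv_zero hP0 ht ht₁, hP1, hjz 0 hi]
    | succ i ih =>
      intro hi t ht
      have hd : ∀ s ∈ Ioo α β, HasDerivAt (P (i + 1)) 0 s := by
        intro s hs
        have := hPs i s hs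
        rw [ih (by omega) s hs] at this
        simpa using this
      rw [const_of_deriv_zero hd ht ht₁, hP1, hjz _ hi]
  refine ⟨hz, ?_⟩
  intro i hi
  induction i, hi using Nat.le_induction with
  | base =>
    intro t ht
    have htβ : t ∈ Ioo α β := ⟨ht.1, ht.2.trans ht₁.2⟩
    rcases Nat.eq_zero_or_pos j with h0 | h0
    · subst h0
      rw [const_of_deriv_zero hP0 htβ ht₁, hP1]; exact hj
    · obtain ⟨m, rfl⟩ : ∃ m, j = m + 1 := ⟨j - 1, by omega⟩
      have hd : ∀ s ∈ Ioo α β, HasDerivAt (P (m + 1)) 0 s := by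
        intro s hs
        have := hPs m s hs
        rw [hz m (by omega) s hs] at this
        simpa using this
      rw [const_of_deriv_zero hd htβ ht₁, hP1]; exact hj
  | succ i hi ih =>
    intro t ht
    have h1 := lt_of_deriv_neg ht₁ ht (hPs i) (by
      intro s hs
      have hs1 : s ∈ Ioo α t₁ := ⟨ht.1.trans hs.1, hs.2⟩
      have hs2 : s ∈ Ioo α β := ⟨hs1.1, hs1.2.trans ht₁.2⟩
      have := mul_pos (wpos i s hs2) (ih s hs1)
      linarith)
    rw [hP1] at h1
    exact lt_of_le_of_lt (hp _) h1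

variable {W : Submodule ℝ (Fin N → ℝ)} {ν : ℕ} {α β t₁ : ℝ} {b : ℕ → ℝ → (Fin N → ℝ)}
  {w : ℕ → ℝ → ℝ}

/-- partial sums -/
noncomputable def pB (P : ℕ → ℝ → ℝ) (b : ℕ → ℝ → (Fin N → ℝ)) (i : ℕ) (t : ℝ) : Fin N → ℝ :=
  ∑ m ∈ Finset.range (i + 1), P m t • b m t

/-- the vectors of the reduced chain (positive relation `P`, first nonzero index `j`) -/
noncomputable def pb (P : ℕ → ℝ → ℝ) (j : ℕ) (b : ℕ → ℝ → (Fin N → ℝ)) (i : ℕ) (t : ℝ) :
    Fin N → ℝ :=
  if i < j then b i t else (P (i + 1) t)⁻¹ • pB P b i t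

/-- the weights of the reduced chain (positive relation `P`, first nonzero index `j`) -/
noncomputable def pw (P : ℕ → ℝ → ℝ) (j : ℕ) (w : ℕ → ℝ → ℝ) (i : ℕ) (t : ℝ) : ℝ :=
  if i + 1 < j then w i t
  else if i + 1 = j then w i t * P (j + 1) t / P j t
  else w i t * P i t * P (i + 2) t / P (i + 1) t ^ 2

lemma dot_pB (c : Fin N → ℝ) (P : ℕ → ℝ → ℝ) (i : ℕ) (t : ℝ) :
    c ⬝ᵥ pB P b i t = ∑ m ∈ Finset.range (i + 1), P m t * (c ⬝ᵥ b m t) := by
  unfold pB
  rw [dotProduct_sum]
  simp [dotProduct_smul]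

lemma pB_succ (c : Fin N → ℝ) (P : ℕ → ℝ → ℝ) (i : ℕ) (t : ℝ) :
    c ⬝ᵥ pB P b (i + 1) t = c ⬝ᵥ pB P b i t + P (i + 1) t * (c ⬝ᵥ b (i + 1) t) := by
  rw [dot_pB, dot_pB, Finset.sum_range_succ]

lemma pB_deriv (S : Sys W (ν + 1) α β b w) {P : ℕ → ℝ → ℝ}
    (hP0 : ∀ t ∈ Ioo α β, HasDerivAt (P 0) 0 t)
    (hPs : ∀ i, ∀ t ∈ Ioo α β, HasDerivAt (P (i + 1)) (-(w i t * P i t)) t)
    {c : Fin N → ℝ} (hc : c ∈ W) (i : ℕ) (hi : i < ν + 1) (t : ℝ) (ht : t ∈ Ioo α β) :
    HasDerivAt (fun u => c ⬝ᵥ pB P b i u)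
      (P i t * (if i < ν then w i t * (c ⬝ᵥ b (i + 1) t) else 0)) t := by
  have hy : ∀ i < ν + 1, HasDerivAt (fun u => c ⬝ᵥ b i u)
      (if i < ν then w i t * (c ⬝ᵥ b (i + 1) t) else 0) t := by
    intro i hi
    split_ifs with h
    · exact S.der i (by omega) t ht c hc
    · exact S.last i (by omega) t ht c hc
  induction i with
  | zero =>
    have heq : (fun u => c ⬝ᵥ pB P b 0 u) = P 0 * fun u => c ⬝ᵥ b 0 u := by
      ext u; simp [dot_pB]
    rw [heq]
    refine ((hP0 t ht).mul (hy 0 hi)).congr_deriv ?_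
    simp
  | succ i ih =>
    have h1 := ih (by omega)
    have heq : (fun u => c ⬝ᵥ pB P b (i + 1) u) =
        (fun u => c ⬝ᵥ pB P b i u) + P (i + 1) * fun u => c ⬝ᵥ b (i + 1) u := by
      ext u; simp [pB_succ]
    rw [heq]
    refine (h1.add ((hPs i t ht).mul (hy (i + 1) hi))).congr_deriv ?_
    rw [if_pos (by omega : i < ν)]
    ring

lemma relation_persists (S : Sys W (ν + 1) α β b w) (ht₁ : t₁ ∈ Ioo α β) {P : ℕ → ℝ → ℝ}
    (hP0 : ∀ t ∈ Ioo α β, HasDerivAt (P 0) 0 t)
    (hPs : ∀ i, ∀ t ∈ Ioo α β, HasDerivAt (P (i + 1)) (-(w i t * P i t)) t)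
    {c : Fin N → ℝ} (hc : c ∈ W) (h1 : c ⬝ᵥ pB P b ν t₁ = 0) (t : ℝ) (ht : t ∈ Ioo α β) :
    c ⬝ᵥ pB P b ν t = 0 := by
  have hd : ∀ s ∈ Ioo α β, HasDerivAt (fun u => c ⬝ᵥ pB P b ν u) 0 s := by
    intro s hs
    have := pB_deriv S hP0 hPs hc ν (by omega) s hs
    simpa using this
  have h2 := const_of_deriv_zero hd ht ht₁
  exact h2.trans h1

lemma dot_pb_lt {P : ℕ → ℝ → ℝ} {j i : ℕ} (h : i < j) (c : Fin N → ℝ) (t : ℝ) :
    c ⬝ᵥ pb P j b i t = c ⬝ᵥ b i t := by
  unfold pb; rw [if_pos h]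

lemma dot_pb_ge {P : ℕ → ℝ → ℝ} {j i : ℕ} (h : j ≤ i) (c : Fin N → ℝ) (t : ℝ) :
    c ⬝ᵥ pb P j b i t = (P (i + 1) t)⁻¹ * (c ⬝ᵥ pB P b i t) := by
  unfold pb; rw [if_neg (by omega), dotProduct_smul, smul_eq_mul]

lemma dot_pB_first {P : ℕ → ℝ → ℝ} {j : ℕ} {t : ℝ} (hz : ∀ i < j, P i t = 0) (c : Fin N → ℝ) :
    c ⬝ᵥ pB P b j t = P j t * (c ⬝ᵥ b j t) := by
  rw [dot_pB, Finset.sum_range_succ, Finset.sum_eq_zero, zero_add]
  intro m hm
  rw [hz m (Finset.mem_range.mp hm), zero_mul]

lemma pstep (S : Sys W (ν + 1) α β b w) (ht₁ : t₁ ∈ Ioo α β) {P : ℕ → ℝ → ℝ} {j : ℕ}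
    (hj : j ≤ ν) (hP0 : ∀ t ∈ Ioo α β, HasDerivAt (P 0) 0 t)
    (hPs : ∀ i, ∀ t ∈ Ioo α β, HasDerivAt (P (i + 1)) (-(w i t * P i t)) t)
    (hz : ∀ i < j, ∀ t ∈ Ioo α β, P i t = 0) (hpos : ∀ i, j ≤ i → ∀ t ∈ Ioo α t₁, 0 < P i t)
    (hrel : ∀ c ∈ W, c ⬝ᵥ pB P b ν t₁ = 0) :
    Sys W ν α t₁ (pb P j b) (pw P j w) := by
  have hsub : Ioo α t₁ ⊆ Ioo α β := fun t ht => ⟨ht.1, ht.2.trans ht₁.2⟩
  have hPc : ∀ i, ContinuousOn (P i) (Ioo α t₁) := by
    intro i t ht
    cases i with
    | zero => exact (hP0 t (hsub ht)).continuousAt.continuousWithinAt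
    | succ i => exact (hPs i t (hsub ht)).continuousAt.continuousWithinAt
  have hR : ∀ c ∈ W, ∀ t ∈ Ioo α t₁, c ⬝ᵥ pB P b ν t = 0 := fun c hc t ht =>
    relation_persists S ht₁ hP0 hPs hc (hrel c hc) t (hsub ht)
  -- derivative of the quotients
  have hq : ∀ i, j ≤ i → i < ν → ∀ t ∈ Ioo α t₁, ∀ c ∈ W,
      HasDerivAt (fun u => c ⬝ᵥ pb P j b i u)
        (w i t * P i t * (c ⬝ᵥ pB P b (i + 1) t) / P (i + 1) t ^ 2) t := by
    intro i hji hiν t ht c hc
    have hp1 := hpos (i + 1) (by omega) t ht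
    have e := pB_deriv S hP0 hPs hc i (by omega) t (hsub ht)
    rw [if_pos hiν] at e
    have key := e.div (hPs i t (hsub ht)) hp1.ne'
    have heq : (fun u => c ⬝ᵥ pb P j b i u) = (fun u => c ⬝ᵥ pB P b i u) / P (i + 1) := by
      ext u
      rw [dot_pb_ge hji, Pi.div_apply]
      field_simp
    rw [heq]
    refine key.congr_deriv ?_
    rw [pB_succ]
    have hp1' := hp1.ne'
    field_simp
    ring
  constructor
  · intro i t ht
    unfold pw
    have hw := S.wpos i t (hsub ht)
    split_ifs with h1 h2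
    · exact hw
    · have h3 := hpos (j + 1) (by omega) t ht
      have h4 := hpos j le_rfl t ht
      positivity
    · have h3 := hpos i (by omega) t ht
      have h4 := hpos (i + 1) (by omega) t ht
      have h5 := hpos (i + 2) (by omega) t ht
      positivity
  · intro i
    unfold pw
    have hwc := (S.wcont i).mono hsub
    split_ifs with h1 h2
    · exact hwc
    · exact (hwc.mul (hPc _)).div (hPc _) (fun t ht => (hpos j le_rfl t ht).ne')
    · refine ((hwc.mul (hPc _)).mul (hPc _)).div ((hPc _).pow 2) ?_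
      intro t ht
      have h4 := hpos (i + 1) (by omega) t ht
      positivity
  · intro i hi t ht c hc
    rcases lt_trichotomy (i + 1) j with h | h | h
    · have heq : (fun u => c ⬝ᵥ pb P j b i u) = fun u => c ⬝ᵥ b i u := by
        ext u; rw [dot_pb_lt (by omega)]
      rw [heq, dot_pb_lt h]
      unfold pw
      rw [if_pos h]
      exact S.der i (by omega) t (hsub ht) c hc
    · have heq : (fun u => c ⬝ᵥ pb P j b i u) = fun u => c ⬝ᵥ b i u := by
        ext u; rw [dot_pb_lt (by omega)]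
      rw [heq]
      refine (S.der i (by omega) t (hsub ht) c hc).congr_deriv ?_
      rw [dot_pb_ge h.ge]
      unfold pw
      rw [if_neg (by omega), if_pos h, h, dot_pB_first (fun m hm => hz m hm t (hsub ht))]
      have h3 := (hpos (j + 1) (by omega) t ht).ne'
      have h4 := (hpos j le_rfl t ht).ne'
      field_simp
    · refine (hq i (by omega) (by omega) t ht c hc).congr_deriv ?_
      rw [dot_pb_ge (by omega : j ≤ i + 1)]
      unfold pw
      rw [if_neg (by omega), if_neg (by omega)]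
      have h3 := (hpos (i + 1) (by omega) t ht).ne'
      have h4 := (hpos (i + 2) (by omega) t ht).ne'
      field_simp
  · intro i hi t ht c hc
    rcases lt_trichotomy (i + 1) j with h | h | h
    · omega
    · have heq : (fun u => c ⬝ᵥ pb P j b i u) = fun u => c ⬝ᵥ b i u := by
        ext u; rw [dot_pb_lt (by omega)]
      rw [heq]
      refine (S.der i (by omega) t (hsub ht) c hc).congr_deriv ?_
      have h1 := hR c hc t ht
      have hjν : j = ν := by omega
      subst hjν
      rw [dot_pB_first (fun m hm => hz m hm t (hsub ht))] at h1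
      have h4 := (hpos j le_rfl t ht).ne'
      have h5 := (mul_eq_zero.mp h1).resolve_left h4
      rw [h, h5, mul_zero]
    · refine (hq i (by omega) (by omega) t ht c hc).congr_deriv ?_
      rw [hi, hR c hc t ht]
      simp
  · intro t ht c hc h0
    refine S.span t (hsub ht) c hc ?_
    have hB : ∀ i, j ≤ i → i < ν + 1 → c ⬝ᵥ pB P b i t = 0 := by
      intro i hji hi
      rcases Nat.lt_or_ge i ν with h | h
      · have h1 := h0 i h
        rw [dot_pb_ge hji] at h1
        have h4 := (inv_pos.mpr (hpos (i + 1) (by omega) t ht)).ne'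
        exact (mul_eq_zero.mp h1).resolve_left h4
      · have : i = ν := by omega
        rw [this]; exact hR c hc t ht
    intro i hi
    rcases lt_trichotomy i j with h | h | h
    · have h1 := h0 i (by omega)
      rwa [dot_pb_lt h] at h1
    · subst h
      have h1 := hB i le_rfl hi
      rw [dot_pB_first (fun m hm => hz m hm t (hsub ht))] at h1
      exact (mul_eq_zero.mp h1).resolve_left (hpos i le_rfl t ht).ne'
    · obtain ⟨m, rfl⟩ : ∃ m, i = m + 1 := ⟨i - 1, by omega⟩
      have h1 := hB (m + 1) (by omega) hi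
      have h2 := hB m (by omega) (by omega)
      rw [pB_succ, h2, zero_add] at h1
      exact (mul_eq_zero.mp h1).resolve_left (hpos (m + 1) (by omega) t ht).ne'

lemma pzero {k j : ℕ} {P : ℕ → ℝ → ℝ} {t : ℝ} (hz : IsZero W k b t) :
    IsZero W k (pb P j b) t := by
  obtain ⟨c, hc, hc0, hci⟩ := hz
  refine ⟨c, hc, hc0, ?_⟩
  intro i hi
  rcases Nat.lt_or_ge i j with h | h
  · rw [dot_pb_lt h]; exact hci i hi
  · rw [dot_pb_ge h, dot_pB, Finset.sum_eq_zero, mul_zero]
    intro m hm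
    rw [hci m (by have := Finset.mem_range.mp hm; omega), mul_zero]

end PStep

section Main

variable {W : Submodule ℝ (Fin N → ℝ)} {ν : ℕ} {α β : ℝ} {b : ℕ → ℝ → (Fin N → ℝ)}
  {w : ℕ → ℝ → ℝ}

lemma Sys.mono (S : Sys W ν α β b w) {α' β' : ℝ} (h : Ioo α' β' ⊆ Ioo α β) :
    Sys W ν α' β' b w :=
  ⟨fun i t ht => S.wpos i t (h ht), fun i => (S.wcont i).mono h,
    fun i hi t ht => S.der i hi t (h ht), fun i hi t ht => S.last i hi t (h ht),
    fun t ht => S.span t (h ht)⟩

/-- positivity of a functional persists forward and holds slightly before -/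
lemma pos_interval (S : Sys W (ν + 1) α β b w) {t₀ : ℝ} (ht₀ : t₀ ∈ Ioo α β) {f : Fin N → ℝ}
    (hf : f ∈ W) (hpos : ∀ i < ν + 1, 0 < f ⬝ᵥ b i t₀) :
    ∃ a, α ≤ a ∧ a < t₀ ∧ ∀ i < ν + 1, ∀ t ∈ Ioo a β, 0 < f ⬝ᵥ b i t := by
  have hfwd : ∀ m, m ≤ ν → ∀ t ∈ Ioo α β, t₀ ≤ t → 0 < f ⬝ᵥ b (ν - m) t := by
    intro m
    induction m with
    | zero =>
      intro _ t ht _
      have h1 := const_of_deriv_zero (fun s hs => S.last ν rfl s hs f hf) ht ht₀
      have h2 : f ⬝ᵥ b ν t = f ⬝ᵥ b ν t₀ := h1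
      rw [Nat.sub_zero, h2]
      exact hpos ν (by omega)
    | succ m ih =>
      intro hm t ht htt
      rcases htt.eq_or_lt with h | h
      · rw [← h]; exact hpos _ (by omega)
      have hsub : Icc t₀ t ⊆ Ioo α β := fun s hs =>
        ⟨lt_of_lt_of_le ht₀.1 hs.1, lt_of_le_of_lt hs.2 ht.2⟩
      have hidx : ν - (m + 1) + 1 = ν - m := by omega
      have hder : ∀ s ∈ Ioo α β, HasDerivAt (fun u => f ⬝ᵥ b (ν - (m + 1)) u)
          (w (ν - (m + 1)) s * (f ⬝ᵥ b (ν - m) s)) s := by
        intro s hs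
        have := S.der (ν - (m + 1)) (by omega) s hs f hf
        rwa [hidx] at this
      obtain ⟨s, hs, hs'⟩ := exists_hasDerivAt_eq_slope (fun u => f ⬝ᵥ b (ν - (m + 1)) u)
        (fun s => w (ν - (m + 1)) s * (f ⬝ᵥ b (ν - m) s)) h
        (fun s hs => (hder s (hsub hs)).continuousAt.continuousWithinAt)
        (fun s hs => hder s (hsub (Ioo_subset_Icc_self hs)))
      have hsα := hsub (Ioo_subset_Icc_self hs)
      have h1 : 0 < w (ν - (m + 1)) s * (f ⬝ᵥ b (ν - m) s) :=
        mul_pos (S.wpos _ s hsα) (ih (by omega) s hsα hs.1.le)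
      rw [hs'] at h1
      have h2 : 0 < t - t₀ := by linarith
      have h3 : 0 < f ⬝ᵥ b (ν - (m + 1)) t - f ⬝ᵥ b (ν - (m + 1)) t₀ := by
        by_contra hcon
        push Not at hcon
        have := div_nonpos_of_nonpos_of_nonneg hcon h2.le
        linarith
      have h4 := hpos (ν - (m + 1)) (by omega)
      linarith
  have hnhds : ∀ᶠ t in nhds t₀, ∀ i ∈ Finset.range (ν + 1), 0 < f ⬝ᵥ b i t := by
    rw [Filter.eventually_all_finset]
    intro i hi
    have hi' := Finset.mem_range.mp hi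
    have hc : ContinuousAt (fun u => f ⬝ᵥ b i u) t₀ :=
      (S.continuousOn hi' hf).continuousAt (isOpen_Ioo.mem_nhds ht₀)
    exact hc.eventually_const_lt (hpos i hi')
  obtain ⟨l, u, ⟨hl, hu⟩, hlu⟩ := mem_nhds_iff_exists_Ioo_subset.mp hnhds
  refine ⟨max α l, le_max_left _ _, max_lt ht₀.1 hl, ?_⟩
  intro i hi t ht
  have htα : t ∈ Ioo α β := ⟨lt_of_le_of_lt (le_max_left _ _) ht.1, ht.2⟩
  rcases lt_or_ge t t₀ with h | h
  · exact hlu ⟨lt_of_le_of_lt (le_max_right _ _) ht.1, h.trans hu⟩ i (Finset.mem_range.mpr hi)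
  · have := hfwd (ν - i) (by omega) t htα h
    rwa [show ν - (ν - i) = i by omega] at this

/-- **Number of zeros.** For a chain of length `ν` and a space of functionals of dimension `k`, the
first `k` vectors degenerate at most `C(ν, k) - 1` times. -/
theorem card_zeros (ν : ℕ) : ∀ (W : Submodule ℝ (Fin N → ℝ)) (α β : ℝ)
    (b : ℕ → ℝ → (Fin N → ℝ)) (w : ℕ → ℝ → ℝ), Sys W ν α β b w → Module.finrank ℝ W ≤ ν →
    ∀ s : Finset ℝ, (∀ t ∈ s, t ∈ Ioo α β ∧ IsZero W (Module.finrank ℝ W) b t) →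
      s.card + 1 ≤ ν.choose (Module.finrank ℝ W) := by
  classical
  induction ν with
  | zero =>
    intro W α β b w S hk s hs
    have h0 : Module.finrank ℝ W = 0 := by omega
    have hs0 : s = ∅ := by
      rw [Finset.eq_empty_iff_forall_notMem]
      intro t ht
      obtain ⟨c, hc, hc0, -⟩ := (hs t ht).2
      have hbot : W = ⊥ := Submodule.finrank_eq_zero.mp h0
      rw [hbot, Submodule.mem_bot] at hc
      exact hc0 hc
    simp [hs0, h0]
  | succ ν ih =>
    intro W α β b w S hk s hs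
    set k := Module.finrank ℝ W with hkdef
    rcases Nat.eq_zero_or_pos k with h0 | hkpos
    · have hs0 : s = ∅ := by
        rw [Finset.eq_empty_iff_forall_notMem]
        intro t ht
        obtain ⟨c, hc, hc0, -⟩ := (hs t ht).2
        have hbot : W = ⊥ := Submodule.finrank_eq_zero.mp h0
        rw [hbot, Submodule.mem_bot] at hc
        exact hc0 hc
      simp [hs0, h0]
    rcases hk.eq_or_lt with h1 | hklt
    · have hs0 : s = ∅ := by
        rw [Finset.eq_empty_iff_forall_notMem]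
        intro t ht
        obtain ⟨c, hc, hc0, hci⟩ := (hs t ht).2
        exact hc0 (S.span t (hs t ht).1 c hc (fun i hi => hci i (by omega)))
      simp [hs0, h1]
    obtain ⟨k', hk'⟩ : ∃ k', k = k' + 1 := ⟨k - 1, by omega⟩
    -- the times where there is a positive functional
    let F : ℝ → Prop := fun t => ∃ f ∈ W, ∀ i < ν + 1, 0 < f ⬝ᵥ b i t
    have hsplit : ∃ s₁ s₂ : Finset ℝ, s = s₁ ∪ s₂ ∧ (∀ t ∈ s₁, ¬ F t) ∧
        s₂.card + 1 ≤ ν.choose k' := by
      by_cases hne : (s.filter F).Nonempty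
      · set t₀ := (s.filter F).min' hne with ht₀
        have ht₀m := Finset.min'_mem _ hne
        rw [← ht₀, Finset.mem_filter] at ht₀m
        obtain ⟨ht₀s, f, hf, hpos⟩ := ht₀m
        obtain ⟨a, hαa, hat, hapos⟩ := pos_interval S (hs t₀ ht₀s).1 hf hpos
        refine ⟨s.filter (· < t₀), s.filter (t₀ ≤ ·), ?_, ?_, ?_⟩
        · ext t
          simp only [Finset.mem_union, Finset.mem_filter]
          constructor
          · intro h
            rcases lt_or_ge t t₀ with h' | h'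
            · exact Or.inl ⟨h, h'⟩
            · exact Or.inr ⟨h, h'⟩
          · rintro (h | h) <;> exact h.1
        · intro t ht hFt
          rw [Finset.mem_filter] at ht
          have := Finset.min'_le (s.filter F) t (Finset.mem_filter.mpr ⟨ht.1, hFt⟩)
          rw [← ht₀] at this
          linarith [ht.2]
        · -- complement of `f` in `W`
          obtain ⟨C, hC⟩ := Submodule.exists_isCompl (Submodule.span ℝ {f})
          have hf0 : f ≠ 0 := by
            intro h
            have := hpos 0 (by omega)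
            rw [h, zero_dotProduct] at this
            exact lt_irrefl _ this
          have hfW : Submodule.span ℝ {f} ≤ W := by
            rw [Submodule.span_singleton_le_iff_mem]; exact hf
          have hd : ∀ c ∈ C ⊓ W, ∀ r : ℝ, c = r • f → c = 0 := by
            intro c hc r hcr
            have h1 : c ∈ Submodule.span ℝ {f} ⊓ C :=
              ⟨Submodule.mem_span_singleton.mpr ⟨r, hcr.symm⟩, hc.1⟩
            rw [hC.inf_eq_bot, Submodule.mem_bot] at h1
            exact h1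
          have hsup : ∀ c ∈ W, ∃ r : ℝ, c - r • f ∈ C ⊓ W := by
            intro c hc
            have h1 : c ∈ Submodule.span ℝ {f} ⊔ C := by rw [hC.sup_eq_top]; trivial
            obtain ⟨y, hy, z, hz, hyz⟩ := Submodule.mem_sup.mp h1
            obtain ⟨r, rfl⟩ := Submodule.mem_span_singleton.mp hy
            refine ⟨r, ?_, ?_⟩
            · rw [← hyz]; simpa using hz
            · exact W.sub_mem hc (W.smul_mem r hf)
          have hdim : Module.finrank ℝ (C ⊓ W : Submodule ℝ (Fin N → ℝ)) = k' := by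
            have h1 := Submodule.finrank_sup_add_finrank_inf_eq (C ⊓ W) (Submodule.span ℝ {f})
            have h2 : (C ⊓ W) ⊔ Submodule.span ℝ {f} = W := by
              apply le_antisymm
              · exact sup_le inf_le_right hfW
              · intro c hc
                obtain ⟨r, hr⟩ := hsup c hc
                have : c = (c - r • f) + r • f := by simp
                rw [this]
                exact Submodule.add_mem_sup hr
                  (Submodule.smul_mem _ _ (Submodule.mem_span_singleton_self f))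
            have h3 : (C ⊓ W) ⊓ Submodule.span ℝ {f} = ⊥ := by
              rw [eq_bot_iff]
              intro c hc
              have : c ∈ Submodule.span ℝ {f} ⊓ C := ⟨hc.2, hc.1.1⟩
              rwa [hC.inf_eq_bot] at this
            rw [h2, h3, finrank_bot, finrank_span_singleton hf0, ← hkdef] at h1
            omega
          have S' := fstep (S.mono (α' := a) (β' := β)
            (fun t ht => ⟨lt_of_le_of_lt hαa ht.1, ht.2⟩)) hf hapos
            (W' := C ⊓ W) inf_le_right hd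
          have := ih (C ⊓ W) a β _ _ S' (by rw [hdim]; omega) (s.filter (t₀ ≤ ·)) (by
            intro t ht
            rw [Finset.mem_filter] at ht
            have h1 : t ∈ Ioo a β := ⟨lt_of_lt_of_le hat ht.2, (hs t ht.1).1.2⟩
            refine ⟨h1, ?_⟩
            rw [hdim]
            have h2 := (hs t ht.1).2
            rw [hk'] at h2
            exact fzero (W' := C ⊓ W) (fun i hi => hapos i (by omega) t h1) hsup h2)
          rwa [hdim] at this
      · refine ⟨s, ∅, by simp, ?_, ?_⟩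
        · intro t ht hFt
          exact hne ⟨t, Finset.mem_filter.mpr ⟨ht, hFt⟩⟩
        · have : 0 < ν.choose k' := Nat.choose_pos (by omega)
          simp only [Finset.card_empty, zero_add]
          exact this
    obtain ⟨s₁, s₂, hs12, hnF, hcard2⟩ := hsplit
    have hcard1 : s₁.card ≤ ν.choose k := by
      rcases s₁.eq_empty_or_nonempty with h | hne
      · simp [h]
      set t₁ := s₁.max' hne with ht₁
      have ht₁m : t₁ ∈ s₁ := Finset.max'_mem _ hne
      have ht₁s : t₁ ∈ s := by rw [hs12]; exact Finset.mem_union_left _ ht₁m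
      have ht₁I := (hs t₁ ht₁s).1
      rcases gordan W (ν + 1) (fun i => b i t₁) with hF | ⟨p, hp0, ⟨i₀, hi₀, hi₀p⟩, -, hrel⟩
      · exact absurd hF (hnF t₁ ht₁m)
      have hex : ∃ j, 0 < p j := ⟨i₀, hi₀p⟩
      set j := Nat.find hex with hj
      have hjpos : 0 < p j := Nat.find_spec hex
      have hjν : j ≤ ν := by
        have : j ≤ i₀ := Nat.find_min' hex hi₀p
        omega
      have hjz : ∀ i < j, p i = 0 := by
        intro i hi
        have := Nat.find_min hex hi
        exact le_antisymm (not_lt.mp this) (hp0 i)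
      obtain ⟨P, hP1, hP0, hPs⟩ := exists_P ht₁I w S.wcont p
      obtain ⟨hz, hpos⟩ := P_signs ht₁I S.wpos hp0 hjpos hjz hP1 hP0 hPs
      have S' := pstep S ht₁I hjν hP0 hPs hz hpos (by
        intro c hc
        rw [dot_pB]
        have := hrel c hc
        simpa [hP1] using this)
      have := ih W α t₁ _ _ S' (by omega) (s₁.erase t₁) (by
        intro t ht
        rw [Finset.mem_erase] at ht
        have h1 : t ≤ t₁ := Finset.le_max' _ _ ht.2
        have h2 : t ∈ s := by rw [hs12]; exact Finset.mem_union_left _ ht.2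
        exact ⟨⟨(hs t h2).1.1, lt_of_le_of_ne h1 ht.1⟩, pzero (hs t h2).2⟩)
      rwa [Finset.card_erase_add_one ht₁m] at this
    have hcard : s.card ≤ s₁.card + s₂.card := by rw [hs12]; exact Finset.card_union_le _ _
    have hpascal : (ν + 1).choose k = ν.choose k' + ν.choose k := by
      rw [hk', Nat.choose_succ_succ]
    rw [hpascal]
    omega

end Main

end Pool.Agent.Lib_helper50.GC
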