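import Pool.Agent.Lib_helper50.GCFrame
import Pool.Agent.Lib_helper50.GCSys

/-!
# From a convex curve to a chain `b_i' = w_i b_{i+1}`
-/

set_option autoImplicit false

open Set Filter Topology

namespace Pool.Agent.Lib_helper50.GCF

open Pool.Agent.Lib_helper50.GC (Sys IsZero card_zeros)

variable {n : ℕ}

/-- Every hyperplane meets `γ` on `J` with total multiplicity at most `n - 1`. -/
def Conv (n : ℕ) (J : Set ℝ) (γ : ℝ → (Fin n → ℝ)) : Prop :=
  ∀ a : Fin n → ℝ, a ≠ 0 → ∀ (s : Finset ℝ) (μ : ℝ → ℕ),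
    (∀ t ∈ s, t ∈ J ∧ ∀ j < μ t, iteratedDeriv j (fun u => ∑ i, a i * γ u i) t = 0) →
    ∑ t ∈ s, μ t ≤ n - 1

lemma iteratedDeriv_dot {γ : ℝ → Fin n → ℝ} (hγ : ContDiff ℝ (⊤ : ℕ∞) γ) (c : Fin n → ℝ) (r : ℕ) :
    iteratedDeriv r (fun u => c ⬝ᵥ γ u) = fun u => c ⬝ᵥ iteratedDeriv r γ u := by
  induction r with
  | zero => simp
  | succ r ih =>
    rw [iteratedDeriv_succ, ih]
    ext t
    have hd : DifferentiableAt ℝ (iteratedDeriv r γ) t :=
      (hγ.differentiable_iteratedDeriv r (by exact_mod_cast WithTop.coe_lt_top _)) t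
    rw [(deriv_dot c hd).deriv, iteratedDeriv_succ]

lemma van_iff {γ : ℝ → Fin n → ℝ} (hγ : ContDiff ℝ (⊤ : ℕ∞) γ) (c : Fin n → ℝ) (t : ℝ) (p : ℕ) :
    Van (fun u => c ⬝ᵥ γ u) t p ↔ ∀ r < p, c ⬝ᵥ iteratedDeriv r γ t = 0 := by
  simp only [Van, iteratedDeriv_dot hγ]

/-- two-point form of convexity -/
lemma Conv.two {J : Set ℝ} {γ : ℝ → (Fin n → ℝ)} (h : Conv n J γ) (hn : 0 < n) {t β : ℝ}
    (ht : t ∈ J) (hβ : β ∈ J) (hne : t ≠ β) {c : Fin n → ℝ} {p q : ℕ} (hpq : n ≤ p + q)
    (h1 : Van (fun u => c ⬝ᵥ γ u) t p) (h2 : Van (fun u => c ⬝ᵥ γ u) β q) : c = 0 := by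
  by_contra hc
  have := h c hc {t, β} (fun u => if u = t then p else q) (by
    intro u hu
    rw [Finset.mem_insert, Finset.mem_singleton] at hu
    rcases hu with rfl | rfl
    · exact ⟨ht, fun j hj => h1 j (by simpa using hj)⟩
    · exact ⟨hβ, fun j hj => h2 j (by simpa [Ne.symm hne] using hj)⟩)
  rw [Finset.sum_pair hne] at this
  simp only [if_true, if_neg (Ne.symm hne)] at this
  omega

lemma Conv.one {J : Set ℝ} {γ : ℝ → (Fin n → ℝ)} (h : Conv n J γ) (hn : 0 < n) {β : ℝ}
    (hβ : β ∈ J) {c : Fin n → ℝ} (h2 : Van (fun u => c ⬝ᵥ γ u) β n) : c = 0 := by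
  by_contra hc
  have := h c hc {β} (fun _ => n) (by
    intro u hu
    rw [Finset.mem_singleton] at hu
    subst hu
    exact ⟨hβ, h2⟩)
  simp at this
  omega

lemma exists_dual {J : Set ℝ} {γ : ℝ → (Fin n → ℝ)} (h : Conv n J γ) (hn : 0 < n)
    (hγ : ContDiff ℝ (⊤ : ℕ∞) γ) {β : ℝ} (hβ : β ∈ J) :
    ∃ a : ℕ → (Fin n → ℝ),
      (∀ j < n, ∀ r < n, a j ⬝ᵥ iteratedDeriv r γ β = if r = n - 1 - j then 1 else 0) ∧
      (∀ κ : ℕ → ℝ, ∑ j ∈ Finset.range n, κ j • a j = 0 → ∀ j < n, κ j = 0) ∧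
      (∀ c : Fin n → ℝ, ∃ κ : ℕ → ℝ, c = ∑ j ∈ Finset.range n, κ j • a j) := by
  classical
  let T : (Fin n → ℝ) →ₗ[ℝ] (Fin n → ℝ) :=
    { toFun := fun c r => c ⬝ᵥ iteratedDeriv (r : ℕ) γ β
      map_add' := by intro a b; ext i; simp [add_dotProduct]
      map_smul' := by intro a b; ext i; simp [smul_dotProduct] }
  have hT : ∀ c r, T c r = c ⬝ᵥ iteratedDeriv (r : ℕ) γ β := fun c r => rfl
  have hinj : Function.Injective T := by
    rw [← LinearMap.ker_eq_bot, LinearMap.ker_eq_bot']
    intro c hc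
    apply h.one hn hβ
    rw [van_iff hγ]
    intro r hr
    have := congrFun hc ⟨r, hr⟩
    simpa [hT] using this
  have hsurj : Function.Surjective T := (LinearMap.injective_iff_surjective).mp hinj
  have hex : ∀ j : ℕ, ∃ v : Fin n → ℝ, ∀ r : Fin n, T v r = if (r : ℕ) = n - 1 - j then 1 else 0 := by
    intro j
    obtain ⟨v, hv⟩ := hsurj (fun r => if (r : ℕ) = n - 1 - j then 1 else 0)
    exact ⟨v, fun r => congrFun hv r⟩
  choose a ha using hex
  have ha' : ∀ j < n, ∀ r < n, a j ⬝ᵥ iteratedDeriv r γ β = if r = n - 1 - j then 1 else 0 := by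
    intro j hj r hr
    exact ha j ⟨r, hr⟩
  have hsum : ∀ (κ : ℕ → ℝ), ∀ j < n,
      (∑ l ∈ Finset.range n, κ l • a l) ⬝ᵥ iteratedDeriv (n - 1 - j) γ β = κ j := by
    intro κ j hj
    rw [sum_dotProduct, Finset.sum_eq_single j]
    · rw [smul_dotProduct, ha' j hj _ (by omega)]; simp
    · intro l hl hlj
      rw [Finset.mem_range] at hl
      rw [smul_dotProduct, ha' l hl _ (by omega), if_neg (by omega), smul_zero]
    · intro h; exact absurd (Finset.mem_range.mpr hj) h
  refine ⟨a, ha', ?_, ?_⟩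
  · intro κ hκ j hj
    rw [← hsum κ j hj, hκ, zero_dotProduct]
  · intro c
    refine ⟨fun j => c ⬝ᵥ iteratedDeriv (n - 1 - j) γ β, ?_⟩
    apply hinj
    ext r
    rw [hT, hT]
    have h1 := hsum (fun j => c ⬝ᵥ iteratedDeriv (n - 1 - j) γ β) (n - 1 - r) (by omega)
    have h2 : n - 1 - (n - 1 - (r : ℕ)) = r := by omega
    simp only [h2] at h1
    exact h1.symm

/-- data of the frame adapted to `β` -/
lemma fU_mem {J : Set ℝ} {γ : ℝ → (Fin n → ℝ)} (h : Conv n J γ) (hn : 0 < n)
    (hγ : ContDiff ℝ (⊤ : ℕ∞) γ) {β : ℝ} (hβ : β ∈ J) {a : ℕ → (Fin n → ℝ)}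
    (ha : ∀ j < n, ∀ r < n, a j ⬝ᵥ iteratedDeriv r γ β = if r = n - 1 - j then 1 else 0)
    (hind : ∀ κ : ℕ → ℝ, ∑ j ∈ Finset.range n, κ j • a j = 0 → ∀ j < n, κ j = 0)
    {t : ℝ} (ht : t ∈ J) (htβ : t < β) : t ∈ fU γ a (n - 1) := by
  classical
  have hvan : ∀ j < n, ∀ p, p + j ≤ n - 1 → Van (fun u => a j ⬝ᵥ γ u) β p := by
    intro j hj p hp
    rw [van_iff hγ]
    intro r hr
    rw [ha j hj r (by omega), if_neg (by omega)]
  have h0 : a 0 ⬝ᵥ γ t ≠ 0 := by
    intro h0
    have h1 : a 0 = 0 := by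
      refine h.two hn ht hβ (ne_of_lt htβ) (p := 1) (q := n - 1) (by omega) ?_
        (hvan 0 hn _ (by omega))
      intro j hj
      obtain rfl : j = 0 := by omega
      simpa using h0
    have h2 := hind (fun j => if j = 0 then 1 else 0) (by
      apply Finset.sum_eq_zero
      intro j _
      by_cases hj : j = 0
      · subst hj; simp [h1]
      · simp [hj]) 0 hn
    simp at h2
  have key : ∀ i, i ≤ n - 1 → t ∈ fU γ a i := by
    intro i
    induction i with
    | zero => intro _; exact ⟨h0, fun l hl => absurd hl (Nat.not_lt_zero l)⟩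
    | succ i ih =>
      intro hi
      have hti := ih (by omega)
      rw [fU_succ]
      refine ⟨hti, ?_⟩
      intro hw0
      have hw0 : fw γ a i t = 0 := hw0
      obtain ⟨hop, hsm, hdual, hvan'⟩ := frame_props γ hγ a i
      have hdiff : DifferentiableAt ℝ (fr γ a i) t :=
        (hsm.contDiffAt (hop.mem_nhds hti)).differentiableAt (by simp)
      let T : (Fin (i + 2) → ℝ) →ₗ[ℝ] (Fin (i + 1) → ℝ) :=
        { toFun := fun κ l => ∑ j, κ j * (a (j : ℕ) ⬝ᵥ fr γ a (l : ℕ) t)
          map_add' := by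
            intro x y; ext l; simp [add_mul, Finset.sum_add_distrib]
          map_smul' := by
            intro x y; ext l; simp [Finset.mul_sum, mul_assoc] }
      have hker : LinearMap.ker T ≠ ⊥ := by
        apply LinearMap.ker_ne_bot_of_finrank_lt
        simp
      obtain ⟨κ, hκ, hκ0⟩ := Submodule.exists_mem_ne_zero_of_ne_bot hker
      have hκ' : ∀ l : Fin (i + 1), ∑ j, κ j * (a (j : ℕ) ⬝ᵥ fr γ a (l : ℕ) t) = 0 := by
        intro l
        exact congrFun (LinearMap.mem_ker.mp hκ) l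
      set c : Fin n → ℝ := ∑ j, κ j • a (j : ℕ) with hc
      have hdot : ∀ v : Fin n → ℝ, c ⬝ᵥ v = ∑ j, κ j * (a (j : ℕ) ⬝ᵥ v) := by
        intro v
        rw [hc, sum_dotProduct]
        simp [smul_dotProduct]
      have hc0 : c = 0 := by
        refine h.two hn ht hβ (ne_of_lt htβ) (p := i + 2) (q := n - 1 - (i + 1)) (by omega) ?_ ?_
        · rw [hvan' t hti c 2]
          refine ⟨fun l hl => ?_, ?_⟩
          · rw [hdot]; exact hκ' ⟨l, by omega⟩
          · rw [Van_succ, Van_succ]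
            refine ⟨?_, ?_, Van_zero _ _⟩
            · show c ⬝ᵥ fr γ a i t = 0
              rw [hdot]; exact hκ' ⟨i, by omega⟩
            · rw [(deriv_dot c hdiff).deriv, hdot]
              apply Finset.sum_eq_zero
              intro j _
              rcases Nat.lt_succ_iff_lt_or_eq.mp j.2 with hj | hj
              · have h1 : (fun u => a (j:ℕ) ⬝ᵥ fr γ a i u) =ᶠ[𝓝 t]
                    fun _ => (if (j:ℕ) = i then (1:ℝ) else 0) := by
                  filter_upwards [hop.mem_nhds hti] with u hu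
                  exact hdual j (by omega) u hu
                have h2 : a (j:ℕ) ⬝ᵥ deriv (fr γ a i) t = 0 := by
                  rw [← (deriv_dot (a (j:ℕ)) hdiff).deriv, h1.deriv_eq, deriv_const]
                rw [h2, mul_zero]
              · rw [hj]
                have : a (i + 1) ⬝ᵥ deriv (fr γ a i) t = 0 := hw0
                rw [this, mul_zero]
        · rw [van_iff hγ]
          intro r hr
          rw [hdot]
          apply Finset.sum_eq_zero
          intro j _
          have := j.2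
          rw [ha j (by omega) r (by omega), if_neg (by omega), mul_zero]
      -- all `κ` vanish
      apply hκ0
      have h3 := hind (fun j => if hj : j < i + 2 then κ ⟨j, hj⟩ else 0) (by
        have h4 : ∑ j ∈ Finset.range n, (if hj : j < i + 2 then κ ⟨j, hj⟩ else 0) • a j
            = ∑ j ∈ Finset.range (i + 2), (if hj : j < i + 2 then κ ⟨j, hj⟩ else 0) • a j := by
          symm
          apply Finset.sum_subset
          · intro x hx
            rw [Finset.mem_range] at hx ⊢
            omega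
          · intro x _ hx
            rw [Finset.mem_range] at hx
            rw [dif_neg hx, zero_smul]
        rw [h4, Finset.sum_range]
        rw [← hc0, hc]
        apply Finset.sum_congr rfl
        intro j _
        simp)
      ext j
      have h5 := h3 j (by have := j.2; omega)
      simpa using h5
  exact key (n - 1) le_rfl

/-- The chain on an interval `(α, β)` to the left of a point `β` of `J`. -/
theorem exists_sys {J : Set ℝ} {γ : ℝ → (Fin n → ℝ)} (h : Conv n J γ) (hn : 0 < n)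
    (hγ : ContDiff ℝ (⊤ : ℕ∞) γ) (hJ : J.OrdConnected) {β t₀ : ℝ} (hβ : β ∈ J) (ht₀ : t₀ ∈ J)
    (hlt : t₀ < β) :
    ∃ α < t₀, ∃ (b : ℕ → ℝ → (Fin n → ℝ)) (w : ℕ → ℝ → ℝ),
      (∀ W : Submodule ℝ (Fin n → ℝ), Sys W n α β b w) ∧
      ∀ t ∈ Ioo α β, ∀ c : Fin n → ℝ, ∀ k < n, (∀ r < k, c ⬝ᵥ iteratedDeriv r γ t = 0) →
        ∀ i < k, c ⬝ᵥ b i t = 0 := by
  classical
  obtain ⟨a, ha, hind, hspan⟩ := exists_dual h hn hγ hβ
  have hmem : ∀ t ∈ J, t < β → t ∈ fU γ a (n - 1) := fun t ht htβ =>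
    fU_mem h hn hγ hβ ha hind ht htβ
  have hopen := (frame_props γ hγ a (n - 1)).1
  obtain ⟨α, hα, hαsub⟩ : ∃ α < t₀, Ioo α β ⊆ fU γ a (n - 1) := by
    obtain ⟨ε, hε, hball⟩ := Metric.isOpen_iff.mp hopen t₀ (hmem t₀ ht₀ hlt)
    refine ⟨t₀ - ε, by linarith, ?_⟩
    intro u hu
    rcases lt_or_ge u t₀ with h' | h'
    · apply hball
      rw [Metric.mem_ball, Real.dist_eq, abs_lt]
      constructor <;> [linarith [hu.1]; linarith]
    · exact hmem u (hJ.out ht₀ hβ ⟨h', hu.2.le⟩) hu.2
  let σ : ℕ → ℝ := fun i => if 0 < fw γ a i t₀ then 1 else -1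
  have hσ : ∀ i, σ i * σ i = 1 := by
    intro i; by_cases h' : 0 < fw γ a i t₀ <;> simp [σ, h']
  let τ : ℕ → ℝ := fun i => ∏ l ∈ Finset.range i, σ l
  have hτs : ∀ i, τ (i + 1) = τ i * σ i := fun i => Finset.prod_range_succ _ _
  have hτ : ∀ i, τ i ≠ 0 := by
    intro i
    apply Finset.prod_ne_zero_iff.mpr
    intro l _ h'
    have := hσ l
    rw [h'] at this
    simp at this
  have ht₀I : t₀ ∈ Ioo α β := ⟨hα, hlt⟩
  have hwc : ∀ i, i < n - 1 → ContinuousOn (fw γ a i) (Ioo α β) := by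
    intro i hi
    obtain ⟨hop, hsm, -, -⟩ := frame_props γ hγ a i
    have hd : ContDiffOn ℝ (⊤ : ℕ∞) (deriv (fr γ a i)) (fU γ a i) :=
      hsm.deriv_of_isOpen hop (by simp)
    have hw : ContDiffOn ℝ (⊤ : ℕ∞) (fw γ a i) (fU γ a i) := contDiffOn_dot _ hd
    exact hw.continuousOn.mono (hαsub.trans (fU_anti γ a (by omega)))
  have hwne : ∀ i, i < n - 1 → ∀ t ∈ Ioo α β, fw γ a i t ≠ 0 := fun i hi t ht =>
    (hαsub ht).2 i hi
  have habs : ∀ i, i < n - 1 → ∀ t ∈ Ioo α β, |fw γ a i t| = σ i * fw γ a i t := by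
    intro i hi t ht
    have hoc : (fw γ a i '' Ioo α β).OrdConnected :=
      (isPreconnected_Ioo.image _ (hwc i hi)).ordConnected
    have hnz : (0 : ℝ) ∉ fw γ a i '' Ioo α β := by
      rintro ⟨u, hu, hu0⟩
      exact hwne i hi u hu hu0
    have m1 : fw γ a i t ∈ fw γ a i '' Ioo α β := ⟨t, ht, rfl⟩
    have m2 : fw γ a i t₀ ∈ fw γ a i '' Ioo α β := ⟨t₀, ht₀I, rfl⟩
    by_cases h' : 0 < fw γ a i t₀
    · have : 0 < fw γ a i t := by
        by_contra hneg
        push Not at hneg
        exact hnz (hoc.out m1 m2 ⟨hneg, h'.le⟩)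
      simp only [σ, h', if_true, one_mul]
      exact abs_of_pos this
    · have : fw γ a i t < 0 := by
        by_contra hneg
        push Not at hneg h'
        exact hnz (hoc.out m2 m1 ⟨h', hneg⟩)
      simp only [σ, h', if_false, neg_mul, one_mul]
      exact abs_of_neg this
  refine ⟨α, hα, fun i t => τ i • fr γ a i t, fun i t => if i < n - 1 then |fw γ a i t| else 1,
    ?_, ?_⟩
  · intro W
    refine ⟨?_, ?_, ?_, ?_, ?_⟩
    · intro i t ht
      by_cases hi : i < n - 1
      · simp only [hi, if_true]; exact abs_pos.mpr (hwne i hi t ht)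
      · simp [hi]
    · intro i
      by_cases hi : i < n - 1
      · simp only [hi, if_true]; exact (hwc i hi).abs
      · simp only [hi, if_false]; exact continuousOn_const
    · intro i hi t ht c _
      have hi' : i < n - 1 := by omega
      obtain ⟨hop, hsm, -, -⟩ := frame_props γ hγ a i
      have hti : t ∈ fU γ a i := fU_anti γ a (by omega) (hαsub ht)
      have hdiff : DifferentiableAt ℝ (fr γ a i) t :=
        (hsm.contDiffAt (hop.mem_nhds hti)).differentiableAt (by simp)
      have h1 := (deriv_dot c hdiff).const_mul (τ i)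
      simp only [dotProduct_smul, smul_eq_mul]
      refine h1.congr_deriv ?_
      simp only [hi', if_true]
      rw [habs i hi' t ht, hτs]
      have h2 : c ⬝ᵥ fr γ a (i + 1) t = (fw γ a i t)⁻¹ * (c ⬝ᵥ deriv (fr γ a i) t) := by
        simp only [fr, dotProduct_smul, smul_eq_mul]; rfl
      rw [h2]
      have hne := hwne i hi' t ht
      have h3 : σ i * fw γ a i t * (τ i * σ i * ((fw γ a i t)⁻¹ * (c ⬝ᵥ deriv (fr γ a i) t)))
          = (σ i * σ i) * (fw γ a i t * (fw γ a i t)⁻¹) * (τ i * (c ⬝ᵥ deriv (fr γ a i) t)) := by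
        ring
      rw [h3, hσ, mul_inv_cancel₀ hne]
      ring
    · intro i hi t ht c _
      obtain rfl : i = n - 1 := by omega
      obtain ⟨hop, hsm, hdual, -⟩ := frame_props γ hγ a (n - 1)
      obtain ⟨κ, hκ⟩ := hspan c
      have hcst : ∀ u ∈ fU γ a (n - 1), c ⬝ᵥ fr γ a (n - 1) u = κ (n - 1) := by
        intro u hu
        rw [hκ, sum_dotProduct, Finset.sum_eq_single (n - 1)]
        · rw [smul_dotProduct, hdual _ le_rfl u hu]; simp
        · intro l hl hne
          rw [Finset.mem_range] at hl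
          rw [smul_dotProduct, hdual l (by omega) u hu, if_neg hne, smul_zero]
        · intro h'; exact absurd (Finset.mem_range.mpr (by omega)) h'
      have he : (fun u => c ⬝ᵥ (τ (n - 1) • fr γ a (n - 1) u)) =ᶠ[𝓝 t]
          fun _ => τ (n - 1) * κ (n - 1) := by
        filter_upwards [hop.mem_nhds (hαsub ht)] with u hu
        rw [dotProduct_smul, hcst u hu, smul_eq_mul]
      exact (hasDerivAt_const t _).congr_of_eventuallyEq he
    · intro t ht c _ hc
      obtain ⟨κ, hκ⟩ := hspan c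
      have hall : ∀ d, d ≤ n → ∀ j, n - d ≤ j → j < n → κ j = 0 := by
        intro d
        induction d with
        | zero => intro _ j h1 h2; omega
        | succ d ih =>
          intro hd j h1 h2
          rcases Nat.lt_or_ge j (n - d) with h3 | h3
          · have hj : j = n - (d + 1) := by omega
            obtain ⟨-, -, hdual, -⟩ := frame_props γ hγ a j
            have htj : t ∈ fU γ a j := fU_anti γ a (by omega) (hαsub ht)
            have h4 := hc j h2
            simp only [dotProduct_smul, smul_eq_mul] at h4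
            have h5 : c ⬝ᵥ fr γ a j t = 0 := by
              rcases mul_eq_zero.mp h4 with h6 | h6
              · exact absurd h6 (hτ j)
              · exact h6
            rw [hκ, sum_dotProduct, Finset.sum_eq_single j] at h5
            · rw [smul_dotProduct, hdual _ le_rfl t htj] at h5
              simpa using h5
            · intro l hl hne
              rw [Finset.mem_range] at hl
              rcases Nat.lt_or_gt_of_ne hne with h7 | h7
              · rw [smul_dotProduct, hdual l h7.le t htj, if_neg hne, smul_zero]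
              · rw [ih (by omega) l (by omega) hl, zero_smul, zero_dotProduct]
            · intro h'; exact absurd (Finset.mem_range.mpr h2) h'
          · exact ih (by omega) j h3 h2
      rw [hκ]
      apply Finset.sum_eq_zero
      intro j hj
      rw [Finset.mem_range] at hj
      rw [hall n le_rfl j (by omega) hj, zero_smul]
  · intro t ht c k hk hc i hi
    obtain ⟨-, -, -, hvan'⟩ := frame_props γ hγ a k
    have htk : t ∈ fU γ a k := fU_anti γ a (by omega) (hαsub ht)
    have h1 := (hvan' t htk c 0).mp ((van_iff hγ c t (k + 0)).mpr (by simpa using hc))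
    simp only [dotProduct_smul, h1.1 i hi, smul_zero]

end Pool.Agent.Lib_helper50.GCF
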