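import Mathlib

/-!
# Pólya–Mammana frame of a convex curve

For a smooth curve `γ` in `ℝ^n` and functionals `a_0, …, a_{n-1}` we divide successively by the last
coordinate and differentiate: `b_0 = γ/(a_0·γ)`, `b_{i+1} = b_i'/(a_{i+1}·b_i')`.
-/

set_option autoImplicit false

open Set Filter Topology

namespace Pool.Agent.Lib_helper50.GCF

/-- `h` vanishes at `t` to order at least `p`. -/
def Van (h : ℝ → ℝ) (t : ℝ) (p : ℕ) : Prop := ∀ j < p, iteratedDeriv j h t = 0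

lemma Van.congr {h g : ℝ → ℝ} {t : ℝ} {p : ℕ} (e : h =ᶠ[𝓝 t] g) (H : Van h t p) : Van g t p := by
  intro j hj
  rw [← Filter.EventuallyEq.iteratedDeriv_eq j e]
  exact H j hj

lemma Van_zero (h : ℝ → ℝ) (t : ℝ) : Van h t 0 := fun j hj => absurd hj (Nat.not_lt_zero j)

lemma Van_succ (h : ℝ → ℝ) (t : ℝ) (p : ℕ) : Van h t (p + 1) ↔ h t = 0 ∧ Van (deriv h) t p := by
  constructor
  · intro H
    refine ⟨by simpa using H 0 (Nat.succ_pos p), ?_⟩
    intro j hj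
    rw [← iteratedDeriv_succ']
    exact H (j + 1) (by omega)
  · rintro ⟨h0, H⟩ j hj
    rcases j with _ | j
    · simpa using h0
    · rw [iteratedDeriv_succ']
      exact H j (by omega)

lemma Van.mul {g h : ℝ → ℝ} {t : ℝ} {p : ℕ} (hg : ContDiffAt ℝ (⊤ : ℕ∞) g t)
    (hh : ContDiffAt ℝ (⊤ : ℕ∞) h t) (H : Van h t p) : Van (g * h) t p := by
  intro j hj
  rw [iteratedDeriv_mul (hg.of_le (by exact_mod_cast le_top)) (hh.of_le (by exact_mod_cast le_top))]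
  apply Finset.sum_eq_zero
  intro i hi
  rw [H (j - i) (by omega)]
  simp

lemma Van_mul_iff {g h : ℝ → ℝ} {t : ℝ} {p : ℕ} (hg : ContDiffAt ℝ (⊤ : ℕ∞) g t)
    (hh : ContDiffAt ℝ (⊤ : ℕ∞) h t) (h0 : g t ≠ 0) : Van (g * h) t p ↔ Van h t p := by
  refine ⟨fun H => ?_, fun H => H.mul hg hh⟩
  have h1 : Van (g⁻¹ * (g * h)) t p := H.mul (hg.inv h0) (hg.mul hh)
  refine h1.congr ?_
  have : ∀ᶠ u in 𝓝 t, g u ≠ 0 := hg.continuousAt.eventually_ne h0
  filter_upwards [this] with u hu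
  simp only [Pi.mul_apply, Pi.inv_apply]
  field_simp

variable {n : ℕ}

/-- The frame. -/
noncomputable def fr (γ : ℝ → Fin n → ℝ) (a : ℕ → (Fin n → ℝ)) : ℕ → ℝ → (Fin n → ℝ)
  | 0 => fun t => (a 0 ⬝ᵥ γ t)⁻¹ • γ t
  | i + 1 => fun t => (a (i + 1) ⬝ᵥ deriv (fr γ a i) t)⁻¹ • deriv (fr γ a i) t

/-- The weights. -/
noncomputable def fw (γ : ℝ → Fin n → ℝ) (a : ℕ → (Fin n → ℝ)) (i : ℕ) (t : ℝ) : ℝ :=
  a (i + 1) ⬝ᵥ deriv (fr γ a i) t

/-- The set on which the first `i` divisions are allowed. -/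
def fU (γ : ℝ → Fin n → ℝ) (a : ℕ → (Fin n → ℝ)) (i : ℕ) : Set ℝ :=
  {t | a 0 ⬝ᵥ γ t ≠ 0 ∧ ∀ l < i, fw γ a l t ≠ 0}

lemma fU_anti (γ : ℝ → Fin n → ℝ) (a : ℕ → (Fin n → ℝ)) {i j : ℕ} (h : i ≤ j) :
    fU γ a j ⊆ fU γ a i := fun _ ht => ⟨ht.1, fun l hl => ht.2 l (by omega)⟩

lemma fU_succ (γ : ℝ → Fin n → ℝ) (a : ℕ → (Fin n → ℝ)) (i : ℕ) :
    fU γ a (i + 1) = fU γ a i ∩ (fw γ a i) ⁻¹' {0}ᶜ := by
  ext t
  simp only [fU, mem_ofPred_eq, mem_inter_iff, mem_preimage, mem_compl_iff, mem_singleton_iff]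
  constructor
  · rintro ⟨h1, h2⟩
    exact ⟨⟨h1, fun l hl => h2 l (by omega)⟩, h2 i (by omega)⟩
  · rintro ⟨⟨h1, h2⟩, h3⟩
    refine ⟨h1, fun l hl => ?_⟩
    rcases Nat.lt_succ_iff_lt_or_eq.mp hl with h | h
    · exact h2 l h
    · exact h ▸ h3

lemma contDiffOn_dot {f : ℝ → Fin n → ℝ} {s : Set ℝ} (c : Fin n → ℝ)
    (hf : ContDiffOn ℝ (⊤ : ℕ∞) f s) : ContDiffOn ℝ (⊤ : ℕ∞) (fun u => c ⬝ᵥ f u) s := by
  simp only [dotProduct]
  apply ContDiffOn.sum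
  intro i _
  exact contDiffOn_const.mul (contDiffOn_pi.mp hf i)

lemma deriv_dot {f : ℝ → Fin n → ℝ} {t : ℝ} (c : Fin n → ℝ) (hf : DifferentiableAt ℝ f t) :
    HasDerivAt (fun u => c ⬝ᵥ f u) (c ⬝ᵥ deriv f t) t := by
  simp only [dotProduct]
  apply HasDerivAt.fun_sum
  intro i _
  exact (hasDerivAt_pi.mp hf.hasDerivAt i).const_mul (c i)

/-- The properties of the frame. -/
lemma frame_props (γ : ℝ → Fin n → ℝ) (hγ : ContDiff ℝ (⊤ : ℕ∞) γ) (a : ℕ → (Fin n → ℝ)) :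
    ∀ i, IsOpen (fU γ a i) ∧ ContDiffOn ℝ (⊤ : ℕ∞) (fr γ a i) (fU γ a i) ∧
      (∀ j ≤ i, ∀ t ∈ fU γ a i, a j ⬝ᵥ fr γ a i t = if j = i then 1 else 0) ∧
      (∀ t ∈ fU γ a i, ∀ (c : Fin n → ℝ) (p : ℕ), Van (fun u => c ⬝ᵥ γ u) t (i + p) ↔
        ((∀ l < i, c ⬝ᵥ fr γ a l t = 0) ∧ Van (fun u => c ⬝ᵥ fr γ a i u) t p)) := by
  intro i
  induction i with
  | zero =>
    have hc0 : ContDiffOn ℝ (⊤ : ℕ∞) (fun u => a 0 ⬝ᵥ γ u) univ := contDiffOn_dot _ hγ.contDiffOn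
    have hc1 : ContDiff ℝ (⊤ : ℕ∞) (fun u => a 0 ⬝ᵥ γ u) := contDiffOn_univ.mp hc0
    have hU : fU γ a 0 = {t | a 0 ⬝ᵥ γ t ≠ 0} := by
      ext t; simp [fU]
    have hopen : IsOpen (fU γ a 0) := by
      rw [hU]
      exact isOpen_ne_fun hc1.continuous continuous_const
    refine ⟨hopen, ?_, ?_, ?_⟩
    · have : ContDiffOn ℝ (⊤ : ℕ∞) (fun u => (a 0 ⬝ᵥ γ u)⁻¹ • γ u) (fU γ a 0) :=
        (hc1.contDiffOn.inv (fun x hx => hx.1)).smul hγ.contDiffOn
      exact this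
    · intro j hj t ht
      obtain rfl : j = 0 := by omega
      have := ht.1
      simp only [fr, dotProduct_smul, smul_eq_mul, if_true]
      exact inv_mul_cancel₀ this
    · intro t ht c p
      simp only [Nat.not_lt_zero, false_imp_iff, implies_true, true_and, zero_add, fr,
        dotProduct_smul, smul_eq_mul]
      have h1 : ContDiffAt ℝ (⊤ : ℕ∞) (fun u => (a 0 ⬝ᵥ γ u)⁻¹) t := hc1.contDiffAt.inv ht.1
      have h2 : ContDiffAt ℝ (⊤ : ℕ∞) (fun u => c ⬝ᵥ γ u) t :=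
        (contDiffOn_univ.mp (contDiffOn_dot c hγ.contDiffOn)).contDiffAt
      exact (Van_mul_iff h1 h2 (inv_ne_zero ht.1)).symm
  | succ i ih =>
    obtain ⟨hop, hsm, hdual, hvan⟩ := ih
    have hd : ContDiffOn ℝ (⊤ : ℕ∞) (deriv (fr γ a i)) (fU γ a i) :=
      hsm.deriv_of_isOpen hop (by simp)
    have hw : ContDiffOn ℝ (⊤ : ℕ∞) (fw γ a i) (fU γ a i) := contDiffOn_dot _ hd
    have hopen : IsOpen (fU γ a (i + 1)) := by
      rw [fU_succ]
      exact hw.continuousOn.isOpen_inter_preimage hop isOpen_compl_singleton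
    have hsub : fU γ a (i + 1) ⊆ fU γ a i := fU_anti γ a (Nat.le_succ i)
    have hwne : ∀ t ∈ fU γ a (i + 1), fw γ a i t ≠ 0 := fun t ht => ht.2 i (Nat.lt_succ_self i)
    have hdiff : ∀ t ∈ fU γ a i, DifferentiableAt ℝ (fr γ a i) t := fun t ht =>
      (hsm.contDiffAt (hop.mem_nhds ht)).differentiableAt (by simp)
    refine ⟨hopen, ?_, ?_, ?_⟩
    · have : ContDiffOn ℝ (⊤ : ℕ∞) (fun u => (fw γ a i u)⁻¹ • deriv (fr γ a i) u)
          (fU γ a (i + 1)) := ((hw.mono hsub).inv hwne).smul (hd.mono hsub)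
      exact this
    · intro j hj t ht
      have hne := hwne t ht
      rcases Nat.lt_succ_iff_lt_or_eq.mp (Nat.lt_succ_of_le hj) with h | h
      · have h1 : (fun u => a j ⬝ᵥ fr γ a i u) =ᶠ[𝓝 t] fun _ => (if j = i then (1:ℝ) else 0) := by
          filter_upwards [hop.mem_nhds (hsub ht)] with u hu
          exact hdual j (by omega) u hu
        have h2 : a j ⬝ᵥ deriv (fr γ a i) t = 0 := by
          rw [← (deriv_dot (a j) (hdiff t (hsub ht))).deriv, h1.deriv_eq, deriv_const]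
        rw [if_neg (by omega)]
        simp only [fr, dotProduct_smul, h2, smul_zero]
      · subst h
        rw [if_pos rfl]
        simp only [fr, dotProduct_smul, smul_eq_mul]
        exact inv_mul_cancel₀ hne
    · intro t ht c p
      have ht' := hsub ht
      have e1 : i + 1 + p = i + (p + 1) := by ring
      rw [e1, hvan t ht' c (p + 1), Van_succ]
      have h1 : deriv (fun u => c ⬝ᵥ fr γ a i u) =ᶠ[𝓝 t]
          (fw γ a i * fun u => c ⬝ᵥ fr γ a (i + 1) u) := by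
        filter_upwards [hopen.mem_nhds ht] with u hu
        rw [(deriv_dot c (hdiff u (hsub hu))).deriv]
        have hne := hwne u hu
        simp only [Pi.mul_apply, fr, dotProduct_smul, smul_eq_mul]
        have : a (i + 1) ⬝ᵥ deriv (fr γ a i) u = fw γ a i u := rfl
        rw [this, mul_inv_cancel_left₀ hne]
      have h2 : ContDiffAt ℝ (⊤ : ℕ∞) (fw γ a i) t := hw.contDiffAt (hop.mem_nhds ht')
      have h3 : ContDiffAt ℝ (⊤ : ℕ∞) (fun u => c ⬝ᵥ fr γ a (i + 1) u) t := by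
        have : ContDiffOn ℝ (⊤ : ℕ∞) (fun u => (fw γ a i u)⁻¹ • deriv (fr γ a i) u)
          (fU γ a (i + 1)) := ((hw.mono hsub).inv hwne).smul (hd.mono hsub)
        exact (contDiffOn_dot c this).contDiffAt (hopen.mem_nhds ht)
      have h4 : Van (deriv (fun u => c ⬝ᵥ fr γ a i u)) t p ↔
          Van (fun u => c ⬝ᵥ fr γ a (i + 1) u) t p := by
        rw [← Van_mul_iff h2 h3 (hwne t ht)]
        exact ⟨fun H => H.congr h1, fun H => H.congr h1.symm⟩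
      rw [h4]
      constructor
      · rintro ⟨ha, hb, hc⟩
        refine ⟨fun l hl => ?_, hc⟩
        rcases Nat.lt_succ_iff_lt_or_eq.mp hl with h | h
        · exact ha l h
        · rw [h]; exact hb
      · rintro ⟨ha, hb⟩
        exact ⟨fun l hl => ha l (by omega), ha i (by omega), hb⟩

end Pool.Agent.Lib_helper50.GCF
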